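import Pool.Agent.H54.HL.Z
/-! # MP_aed4c8_lc: fewer than theta colours for every finite colouring

If `κ` is strongly inaccessible, `θ` is finite and `HL⁺_{2,θ}[κ]` holds (one colour of `θ` is omitted), then for every finite number `m` of
colours there is a suitable tree with fewer than `θ` colours on every `S(η₀, η₁)`. -/
set_option autoImplicit false
open HLP

theorem HLP.old_FiniteReduction
    (κ : Cardinal.{0}) (hκ : κ.IsInaccessible) (θ : ℕ) (hθ : 2 ≤ θ) (h : HLb κ θ)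
    (m : ℕ) (lt : Ordinal.{0} → Sq → Sq → Prop) (hlt : WO κ lt)
    (c : Ordinal.{0} → Sq → Sq → Fin m) :
    ∃ (T : Ordinal.{0} → Set Sq) (A : Set Ordinal.{0}), Suitable κ T A ∧
      ∀ α η₀ η₁, η₀ ∈ T α → η₁ ∈ T α → η₀ ≠ η₁ →
        {i : Fin m | ∃ p ∈ S T A lt α η₀ η₁, c p.1 p.2.1 p.2.2 = i}.ncard < θ :=
  main hκ.aleph0_lt.le (by omega) h hlt c
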