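import Pool.Agent.H54.HL.G5
/-! # MP_aed4c8_lc: fewer than theta colours for each order type, for every finite colouring

If `κ` is strongly inaccessible, `θ` is finite and `HL⁺_{2,θ}[κ]` holds (one colour of `θ` is omitted), then every colouring of pairs with
finitely many colours takes, on all pairs of some suitable tree (at its splitting levels), fewer than `θ` colours for each of the two order types. -/
set_option autoImplicit false
open HLP

theorem HLP.old_PairDegree
    (κ : Cardinal.{0}) (hκ : κ.IsInaccessible) (θ : ℕ) (hθ : 2 ≤ θ) (h : HLb κ θ)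
    (m : ℕ) (lt : Ordinal.{0} → Sq → Sq → Prop) (hlt : WO κ lt) (c : Ordinal.{0} → Sq → Sq → Fin m) :
    ∃ (T : Ordinal.{0} → Set Sq) (A : Set Ordinal.{0}) (F₀ F₁ : Set (Fin m)),
      Suitable κ T A ∧ F₀.ncard < θ ∧ F₁.ncard < θ ∧
      ∀ β ∈ A, ∀ x ∈ T β, ∀ y ∈ T β, (∃ δ, res δ x = res δ y ∧ x δ = false ∧ y δ = true) →
        (lt β x y → c β x y ∈ F₀) ∧ (lt β y x → c β y x ∈ F₁) :=
  degree hκ (by omega) h hlt c
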